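import Pool.Agent.Helper22.G4.Cone
import Pool.Agent.Helper22.G4.St.A1

/-! # G4-A3: placing vertices -/

set_option autoImplicit false

namespace Pool.Agent.Helper9.G4

open Submodule Pool.Agent.Helper22.G4

variable {V : Type*}

theorem zs_subset (c : V → E5) (A : Finset V) (f : E5 →ₗ[ℝ] ℝ) : zs c A f ⊆ A := fun _ hv => hv.1

/-- a functional that is nonnegative on `S` and positive somewhere is positive on the sum -/
theorem sum_pos_of {c : V → E5} {f : E5 →ₗ[ℝ] ℝ} {S : Finset V} (h0 : ∀ v ∈ S, 0 ≤ f (c v))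
    {w : V} (hw : w ∈ S) (hfw : f (c w) ≠ 0) : 0 < f (∑ v ∈ S, c v) := by
  rw [map_sum]
  exact Finset.sum_pos' h0 ⟨w, hw, lt_of_le_of_ne (h0 w hw) hfw.symm⟩

theorem sum_zero_of {c : V → E5} {f : E5 →ₗ[ℝ] ℝ} {S A : Finset V}
    (h0 : (S : Set V) ⊆ zs c A f) : f (∑ v ∈ S, c v) = 0 := by
  rw [map_sum]
  exact Finset.sum_eq_zero fun v hv => (h0 hv).2

/-- G4-A3 (placing a vertex near the set `e z`, beyond all members containing `e z` except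
`Z₀ z`). -/
theorem place [DecidableEq V] {A B : Finset V} (hAB : Disjoint A B) {𝓩 : Set (Set V)}
    (h : Realizable A 𝓩) (e Z₀ : V → Finset V) (hne : ∀ z ∈ B, (e z).Nonempty)
    (heZ : ∀ z ∈ B, e z ⊆ Z₀ z) (hZ₀ : ∀ z ∈ B, (Z₀ z : Set V) ∈ 𝓩)
    (hmax : ∀ z ∈ B, ∀ Z ∈ 𝓩, (Z₀ z : Set V) ⊆ Z → Z = Z₀ z) (hA : (A : Set V) ∉ 𝓩)
    (hd : ∀ z ∈ B, ∀ y ∈ B, z ≠ y → ∀ Z ∈ 𝓩, (e z : Set V) ⊆ Z → ¬ (e y : Set V) ⊆ Z) :
    Realizable (A ∪ B) (addFam 𝓩 B fun z => {Z | Z ∈ 𝓩 ∧ (e z : Set V) ⊆ Z ∧ Z ≠ Z₀ z}) := by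
  obtain ⟨c, Φ, hC, rfl⟩ := h
  have hmem : ∀ φ ∈ Φ, zs c A φ ∈ zs c A '' Φ := fun φ hφ => ⟨φ, hφ, rfl⟩
  have hZA : ∀ z ∈ B, Z₀ z ⊆ A := by
    intro z hz v hv
    obtain ⟨φ, hφ, hφ2⟩ := hZ₀ z hz
    have : v ∈ (Z₀ z : Set V) := hv
    rw [← hφ2] at this
    exact this.1
  set Vis : V → Set (E5 →ₗ[ℝ] ℝ) := fun z =>
    {φ | φ ∈ Φ ∧ (e z : Set V) ⊆ zs c A φ ∧ zs c A φ ≠ Z₀ z} with hVis
  have hiff : ∀ z, ∀ φ ∈ Φ, (φ ∈ Vis z ↔
      zs c A φ ∈ {Z | Z ∈ zs c A '' Φ ∧ (e z : Set V) ⊆ Z ∧ Z ≠ Z₀ z}) := by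
    intro z φ hφ
    constructor
    · rintro ⟨_, h2, h3⟩
      exact ⟨hmem φ hφ, h2, h3⟩
    · rintro ⟨_, h2, h3⟩
      exact ⟨hφ, h2, h3⟩
  -- the constants
  have hK : ∀ z, ∃ K : ℝ, z ∈ B → ∀ φ ∈ Vis z,
      φ (∑ v ∈ A, c v) < K * φ (∑ v ∈ Z₀ z, c v) := by
    intro z
    by_cases hz : z ∈ B
    · have hfin : (Vis z).Finite := hC.finite.subset fun φ hφ => hφ.1
      have hpos : ∀ φ ∈ Vis z, 0 < φ (∑ v ∈ Z₀ z, c v) := by
        rintro φ ⟨h1, h2, h3⟩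
        have h4 : ¬ (Z₀ z : Set V) ⊆ zs c A φ := fun h4 => h3 (hmax z hz _ (hmem φ h1) h4)
        obtain ⟨w, hw1, hw2⟩ := Set.not_subset.1 h4
        refine sum_pos_of (fun v hv => hC.nonneg φ h1 v (hZA z hz hv)) (w := w) hw1 ?_
        exact fun h5 => hw2 ⟨hZA z hz hw1, h5⟩
      have hev : ∀ᶠ K : ℝ in Filter.atTop, ∀ φ ∈ Vis z,
          φ (∑ v ∈ A, c v) < K * φ (∑ v ∈ Z₀ z, c v) := by
        rw [hfin.eventually_all]
        intro φ hφ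
        exact (Filter.tendsto_id.atTop_mul_const (hpos φ hφ)).eventually_gt_atTop _
      obtain ⟨K, hK⟩ := hev.exists
      exact ⟨K, fun _ => hK⟩
    · exact ⟨0, fun h => absurd h hz⟩
  choose K hK using hK
  have key := add_general hAB hC Vis e (fun z => K z • (∑ v ∈ Z₀ z, c v) - ∑ v ∈ A, c v)
    (fun z _ φ hφ => hφ.1) (fun z hz => (heZ z hz).trans (hZA z hz)) hne ?_ ?_ ?_
  · refine Eq.mp (congrArg (Realizable (A ∪ B)) ?_) key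
    symm
    ext Z
    constructor
    · rintro (⟨⟨φ, hφ, rfl⟩, h2⟩ | ⟨z, hz, Z₁, ⟨φ, hφ, rfl⟩, h1, Z₂, ⟨ψ, hψ, rfl⟩, h2, rfl⟩)
      · left
        exact ⟨φ, hφ, fun z hz h3 => h2 z hz ((hiff z φ hφ).1 h3), rfl⟩
      · right
        exact ⟨z, hz, φ, (hiff z φ hφ).2 h1, ψ, hψ, fun h3 => h2 ((hiff z ψ hψ).1 h3), rfl⟩
    · rintro (⟨φ, hφ, h2, rfl⟩ | ⟨z, hz, φ, hφ, ψ, hψ, h2, rfl⟩)
      · left
        exact ⟨hmem φ hφ, fun z hz h3 => h2 z hz ((hiff z φ hφ).2 h3)⟩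
      · right
        exact ⟨z, hz, _, hmem φ hφ.1, (hiff z φ hφ.1).1 hφ, _, hmem ψ hψ,
          fun h3 => h2 ((hiff z ψ hψ).2 h3), rfl⟩
  · -- disjointness
    intro z hz y hy hzy
    rw [Set.disjoint_left]
    rintro φ ⟨h1, h2, _⟩ ⟨_, h3, _⟩
    exact hd z hz y hy hzy _ (hmem φ h1) h2 h3
  · -- visible inequalities
    intro z hz φ hφ
    refine ⟨sum_zero_of hφ.2.1, ?_⟩
    have := hK z hz φ hφ
    simp only [map_sub, map_smul, smul_eq_mul]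
    linarith
  · -- the others
    intro z hz φ hφ hφz
    by_cases hsub : (e z : Set V) ⊆ zs c A φ
    · right
      have heq : zs c A φ = Z₀ z := by
        by_contra hne'
        exact hφz ⟨hφ, hsub, hne'⟩
      refine ⟨sum_zero_of hsub, ?_, ?_⟩
      · have h1 : φ (∑ v ∈ Z₀ z, c v) = 0 := sum_zero_of (A := A) heq.ge
        have h2 : ¬ (A : Set V) ⊆ zs c A φ := fun h2 => hA
          ((Set.Subset.antisymm h2 (zs_subset c A φ)).symm ▸ hmem φ hφ)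
        obtain ⟨w, hw1, hw2⟩ := Set.not_subset.1 h2
        have h3 : 0 < φ (∑ v ∈ A, c v) :=
          sum_pos_of (hC.nonneg φ hφ) (w := w) hw1 fun h5 => hw2 ⟨hw1, h5⟩
        simp only [map_sub, map_smul, smul_eq_mul, h1]
        linarith
      · intro y hy hφy
        by_cases hyz : y = z
        · subst hyz
          exact hφz hφy
        · exact hd z hz y hy (fun h => hyz h.symm) _ (hmem φ hφ) hsub hφy.2.1
    · left
      obtain ⟨w, hw1, hw2⟩ := Set.not_subset.1 hsub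
      have hwA : w ∈ A := hZA z hz (heZ z hz hw1)
      exact sum_pos_of (fun v hv => hC.nonneg φ hφ v (hZA z hz (heZ z hz hv))) (w := w) hw1
        fun h5 => hw2 ⟨hwA, h5⟩

end Pool.Agent.Helper9.G4
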