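import Pool.Agent.Helper22.G4.St.C0
import Pool.Agent.Helper22.G4.St.C8

/-! # G4-C13: the facets `T0` are free -/

set_option autoImplicit false

namespace Pool.Agent.Helper9.G4

open Pool.Agent.Helper22.G4

theorem t0_u {M N g a i j : ℕ} (h : a ≤ M) : Fc.mem (Fc.T0 M N g) (Vx.u a i j) = false := by
  rw [← Bool.not_eq_true, Fc.mem_u]
  rintro ⟨h1, _⟩
  simp only [Fc.T0] at h1
  omega

theorem t0_b1 (M N g : ℕ) : Fc.mem (Fc.T0 M N g) Vx.b1 = true := by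
  rw [Fc.mem_b1]; rfl

theorem t0_b2 (M N g : ℕ) : Fc.mem (Fc.T0 M N g) Vx.b2 = true := by
  rw [Fc.mem_b2]; rfl

theorem t0_p {M N g k : ℕ} : Fc.mem (Fc.T0 M N g) (Vx.p k) = true ↔ k = g := by
  rw [Fc.mem_p]
  simp only [Fc.T0]
  omega

theorem t0_q {M N g k : ℕ} : Fc.mem (Fc.T0 M N g) (Vx.q k) = true ↔ k = g := by
  rw [Fc.mem_q]
  simp only [Fc.T0]
  omega

/-- the pages and gadget numbers of the three gadgets -/
theorem gadget {I : NF} (hI : I.OK) {d : OpD} (hd : d ∈ I.opds) {g : ℕ}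
    (hg : g = d.g0 ∨ g = d.g1 ∨ g = d.g2) : g < 3 * I.ops.length ∧
      Fc.T0 I.M I.N g ∈ I.data.fcodes ∧ ∃ X Y, Fc.GX I.N X g ∈ I.data.fcodes ∧
      Fc.GY I.N Y g ∈ I.data.fcodes ∧ Fc.G I.N X Y g (0, true) ∈ I.data.fcodes ∧
      Fc.G I.N X Y g (I.N, true) ∈ I.data.fcodes := by
  have h1 := (NF.opd_ok hI hd).1
  have h2 := (NF.size hI).2.1
  have hm : ∀ f : Fc, f ∈ OpD.facets I.M I.N d → f ∈ I.data.fcodes := fun f hf =>
    NF.mem_fcodes.2 (Or.inr (Or.inr ⟨d, hd, hf⟩))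
  rcases hg with rfl | rfl | rfl
  · refine ⟨by simp only [OpD.g0]; omega, hm _ (by simp [OpD.facets]), d.pb, d.pa,
      hm _ (by simp [OpD.facets]), hm _ (by simp [OpD.facets]), hm _ (by simp [OpD.facets]),
      hm _ (by simp [OpD.facets])⟩
  · refine ⟨by simp only [OpD.g1]; omega, hm _ (by simp [OpD.facets]), d.pb, d.pc,
      hm _ (by simp [OpD.facets]), hm _ (by simp [OpD.facets]), hm _ (by simp [OpD.facets]),
      hm _ (by simp [OpD.facets])⟩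
  · refine ⟨by simp only [OpD.g2]; omega, hm _ (by simp [OpD.facets]), d.pc, d.pd,
      hm _ (by simp [OpD.facets]), hm _ (by simp [OpD.facets]), hm _ (by simp [OpD.facets]),
      hm _ (by simp [OpD.facets])⟩

theorem t0_set {I : NF} (hI : I.OK) {g : ℕ} (hg : g < 3 * I.ops.length) {v : Vx} :
    (v ∈ I.data.verts ∧ I.data.mem (Fc.T0 I.M I.N g) v) ↔
      v = Vx.b1 ∨ v = Vx.b2 ∨ v = Vx.p g ∨ v = Vx.q g := by
  constructor
  · rintro ⟨h1, h2⟩
    rcases NF.verts_cases h1 with rfl | rfl | ⟨a, i, j, h3, rfl⟩ | ⟨k, _, rfl⟩ | ⟨k, _, rfl⟩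
    · exact Or.inl rfl
    · exact Or.inr (Or.inl rfl)
    · have h4 : Fc.mem (Fc.T0 I.M I.N g) (Vx.u a i j) = true := h2
      rw [t0_u (NF.pu_lt hI h3).2.2] at h4
      exact absurd h4 (by simp)
    · exact Or.inr (Or.inr (Or.inl (congrArg Vx.p (t0_p.1 h2))))
    · exact Or.inr (Or.inr (Or.inr (congrArg Vx.q (t0_q.1 h2))))
  · rintro (rfl | rfl | rfl | rfl)
    · exact ⟨NF.b_mem.1, t0_b1 I.M I.N g⟩
    · exact ⟨NF.b_mem.2, t0_b2 I.M I.N g⟩
    · exact ⟨NF.p_mem.2 hg, t0_p.2 rfl⟩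
    · exact ⟨NF.q_mem.2 hg, t0_q.2 rfl⟩

/-- criterion for adjacency of two vertices of `T0` -/
theorem t0_padj {I : NF} (hI : I.OK) {g : ℕ} (hg : g < 3 * I.ops.length)
    (hT : Fc.T0 I.M I.N g ∈ I.data.fcodes) {a b : Vx} (hab : a ≠ b)
    (ha : I.data.mem (Fc.T0 I.M I.N g) a) (hb : I.data.mem (Fc.T0 I.M I.N g) b)
    (h : ∀ t, (t = Vx.b1 ∨ t = Vx.b2 ∨ t = Vx.p g ∨ t = Vx.q g) → t ≠ a → t ≠ b →
      ∃ f ∈ I.data.fcodes, I.data.mem f a ∧ I.data.mem f b ∧ ¬ I.data.mem f t) :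
    I.data.padj a b := by
  refine ⟨hab, fun t ht hta htb => ?_⟩
  by_cases h1 : I.data.mem (Fc.T0 I.M I.N g) t
  · exact h t ((t0_set hI hg).1 ⟨ht, h1⟩) hta htb
  · exact ⟨_, hT, ha, hb, h1⟩

theorem t0_clique {I : NF} (hI : I.OK) {g : ℕ} (hg : g < 3 * I.ops.length)
    (hT : Fc.T0 I.M I.N g ∈ I.data.fcodes) {X Y : ℕ} (hX : Fc.GX I.N X g ∈ I.data.fcodes)
    (hY : Fc.GY I.N Y g ∈ I.data.fcodes) (h0 : Fc.G I.N X Y g (0, true) ∈ I.data.fcodes)
    (hN : Fc.G I.N X Y g (I.N, true) ∈ I.data.fcodes) :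
    I.data.padj Vx.b1 (Vx.p g) ∧ I.data.padj Vx.b1 (Vx.q g) ∧ I.data.padj Vx.b2 (Vx.p g) ∧
      I.data.padj Vx.b2 (Vx.q g) ∧ I.data.padj (Vx.p g) (Vx.q g) := by
  have hN10 : 10 ≤ I.N := (NF.size hI).2.2.1
  have hN0 : ¬ I.N = 0 := by omega
  have h0N : ¬ 0 = I.N := by omega
  have e : ∀ (f : Fc) (v : Vx), I.data.mem f v = Fc.mem f v := fun _ _ => rfl
  refine ⟨?_, ?_, ?_, ?_, ?_⟩
  · refine t0_padj hI hg hT (by simp [Vx.b1, Vx.p]) (t0_b1 I.M I.N g) (t0_p.2 rfl) ?_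
    rintro t (rfl | rfl | rfl | rfl) h1 h2
    · exact absurd rfl h1
    · exact ⟨_, hN, by simp [e, Fc.mem_b1, Fc.G], by simp [e, Fc.mem_p, Fc.G],
        by simp [e, Fc.mem_b2, Fc.G, hN0]⟩
    · exact absurd rfl h2
    · exact ⟨_, hX, by simp [e, Fc.mem_b1, Fc.GX], by simp [e, Fc.mem_p, Fc.GX],
        by simp [e, Fc.mem_q, Fc.GX]⟩
  · refine t0_padj hI hg hT (by simp [Vx.b1, Vx.q]) (t0_b1 I.M I.N g) (t0_q.2 rfl) ?_
    rintro t (rfl | rfl | rfl | rfl) h1 h2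
    · exact absurd rfl h1
    · exact ⟨_, hN, by simp [e, Fc.mem_b1, Fc.G], by simp [e, Fc.mem_q, Fc.G],
        by simp [e, Fc.mem_b2, Fc.G, hN0]⟩
    · exact ⟨_, hY, by simp [e, Fc.mem_b1, Fc.GY], by simp [e, Fc.mem_q, Fc.GY],
        by simp [e, Fc.mem_p, Fc.GY]⟩
    · exact absurd rfl h2
  · refine t0_padj hI hg hT (by simp [Vx.b2, Vx.p]) (t0_b2 I.M I.N g) (t0_p.2 rfl) ?_
    rintro t (rfl | rfl | rfl | rfl) h1 h2
    · exact ⟨_, h0, by simp [e, Fc.mem_b2, Fc.G], by simp [e, Fc.mem_p, Fc.G],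
        by simp [e, Fc.mem_b1, Fc.G, h0N]⟩
    · exact absurd rfl h1
    · exact absurd rfl h2
    · exact ⟨_, hX, by simp [e, Fc.mem_b2, Fc.GX], by simp [e, Fc.mem_p, Fc.GX],
        by simp [e, Fc.mem_q, Fc.GX]⟩
  · refine t0_padj hI hg hT (by simp [Vx.b2, Vx.q]) (t0_b2 I.M I.N g) (t0_q.2 rfl) ?_
    rintro t (rfl | rfl | rfl | rfl) h1 h2
    · exact ⟨_, h0, by simp [e, Fc.mem_b2, Fc.G], by simp [e, Fc.mem_q, Fc.G],
        by simp [e, Fc.mem_b1, Fc.G, h0N]⟩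
    · exact absurd rfl h1
    · exact ⟨_, hY, by simp [e, Fc.mem_b2, Fc.GY], by simp [e, Fc.mem_q, Fc.GY],
        by simp [e, Fc.mem_p, Fc.GY]⟩
    · exact absurd rfl h2
  · refine t0_padj hI hg hT (by simp [Vx.p, Vx.q]) (t0_p.2 rfl) (t0_q.2 rfl) ?_
    rintro t (rfl | rfl | rfl | rfl) h1 h2
    · exact ⟨_, h0, by simp [e, Fc.mem_p, Fc.G], by simp [e, Fc.mem_q, Fc.G],
        by simp [e, Fc.mem_b1, Fc.G, h0N]⟩
    · exact ⟨_, hN, by simp [e, Fc.mem_p, Fc.G], by simp [e, Fc.mem_q, Fc.G],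
        by simp [e, Fc.mem_b2, Fc.G, hN0]⟩
    · exact absurd rfl h1
    · exact absurd rfl h2

/-- G4-C13 (the facets `T0`). -/
theorem NF.t0_free {I : NF} (hI : I.OK) : ∀ d ∈ I.opds, ∀ g, (g = d.g0 ∨ g = d.g1 ∨ g = d.g2) →
    I.data.Free (Fc.T0 I.M I.N g) := by
  intro d hd g hg
  obtain ⟨hg', hT, X, Y, hX, hY, h0, hN⟩ := gadget hI hd hg
  have hN10 : 10 ≤ I.N := (NF.size hI).2.2.1
  refine ⟨hT, ?_, ?_, ?_, ?_⟩
  · have hs : {a | a ∈ I.data.verts ∧ I.data.mem (Fc.T0 I.M I.N g) a} =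
        (({Vx.b1, Vx.b2, Vx.p g, Vx.q g} : Finset Vx) : Set Vx) := by
      ext v
      simp only [Finset.coe_insert, Finset.coe_singleton]
      exact t0_set hI hg'
    rw [hs, Set.ncard_coe_finset]
    rw [Finset.card_insert_of_notMem, Finset.card_insert_of_notMem, Finset.card_insert_of_notMem,
      Finset.card_singleton]
    · simp [Vx.p, Vx.q]
    · simp [Vx.b2, Vx.p, Vx.q]
    · simp [Vx.b1, Vx.b2, Vx.p, Vx.q]
  · obtain ⟨c1, c2, c3, c4, c5⟩ := t0_clique hI hg' hT hX hY h0 hN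
    have c0 := NF.padj_b hI
    intro a ha b hb ha' hb' hab
    rcases (t0_set hI hg').1 ⟨ha, ha'⟩ with rfl | rfl | rfl | rfl <;>
      rcases (t0_set hI hg').1 ⟨hb, hb'⟩ with rfl | rfl | rfl | rfl <;>
      first
        | exact absurd rfl hab
        | assumption
        | exact NF.padj_symm (by assumption)
  · intro R hR
    have hne : ∀ f : Fc, (f.2.2.2.1 = 0 ∨ f.2.2.2.2 = 0 ∨ f.2.1.1 = f.2.1.2) →
        f ≠ Fc.T0 I.M I.N g := by
      rintro f h rfl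
      simp only [Fc.T0] at h
      omega
    rcases NF.mem_flats.1 hR with rfl | ⟨e, he, hRe⟩
    · exact hne _ (Or.inl rfl)
    · simp only [OpD.flats, OpD.squad, OpD.prev, List.mem_cons, List.not_mem_nil, or_false] at hRe
      rcases hRe with rfl | rfl | rfl | rfl | rfl | rfl | rfl | rfl | rfl | rfl | rfl | rfl | rfl |
        rfl | rfl | rfl | rfl <;> refine hne _ ?_ <;> dsimp only <;>
        first
          | exact Or.inl rfl
          | exact Or.inr (Or.inl rfl)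
          | exact Or.inr (Or.inr rfl)
          | (split_ifs <;> exact Or.inl rfl)
  · intro R hR
    rcases NF.mem_flats.1 hR with rfl | ⟨e, he, hRe⟩
    · have h1 : Fc.mem (Fc.T0 I.M I.N g) (Vx.u 0 1 2) = false := t0_u (Nat.zero_le _)
      have h2 : (List.range (I.N - 1)) = 0 :: (List.range (I.N - 2)).map Nat.succ := by
        have : I.N - 1 = (I.N - 2) + 1 := by omega
        rw [this, List.range_succ_eq_map]
      intro h3
      have h4 : (I.page0.1.take 2).all (Fc.mem (Fc.T0 I.M I.N g)) = true := h3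
      rw [List.all_eq_true] at h4
      have h5 := h4 (Vx.u 0 1 2) (by
        simp only [NF.page0, h2, List.map_cons, List.cons_append]
        exact List.mem_cons_self)
      rw [h1] at h5
      exact absurd h5 (by simp)
    · have hM := (NF.opd_ok hI he).1
      have hpa : e.pa ≤ I.M := by simp only [OpD.pa]; omega
      have hpb : e.pb ≤ I.M := by simp only [OpD.pb]; omega
      have hpc : e.pc ≤ I.M := by simp only [OpD.pc]; omega
      have hpd : e.pd ≤ I.M := by simp only [OpD.pd]; omega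
      have h0 : 0 ≤ I.M := Nat.zero_le _
      intro h3
      have h4 : (R.1.take 2).all (Fc.mem (Fc.T0 I.M I.N g)) = true := h3
      simp only [OpD.flats, OpD.squad, List.mem_cons, List.not_mem_nil, or_false] at hRe
      rcases hRe with rfl | rfl | rfl | rfl | rfl | rfl | rfl | rfl | rfl | rfl | rfl | rfl | rfl |
        rfl | rfl | rfl | rfl <;>
        simp [List.take, t0_u hpa, t0_u hpb, t0_u hpc, t0_u hpd, t0_u h0] at h4

end Pool.Agent.Helper9.G4
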