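import Pool.Agent.Helper22.G4.Cone
import Pool.Agent.Helper22.G4.St.P2
import Pool.Agent.Helper22.G4.St.P5

/-! # G4-P6: removal of all stacked vertices -/

set_option autoImplicit false

namespace Pool.Agent.Helper9.G4

open Submodule Pool.Agent.Helper22.G4

variable {V E : Type*} [AddCommGroup E] [Module ℝ E]

/-- G4-P6 (removal of all stacked vertices). `A` is the set of vertices that remain, `B` the set of
stacked vertices, `T z` the four neighbours of a stacked vertex `z`. -/
theorem remove_all [DecidableEq V] {c : V → E} {A B : Finset V} (hAB : Disjoint A B)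
    (hc : Conf c (A ∪ B)) (hr : rk c ((A ∪ B : Finset V) : Set V) = 5) (adj : V → V → Prop)
    (hadj : ∀ u ∈ A ∪ B, ∀ v ∈ A ∪ B, u ≠ v → (FaceOn c (A ∪ B) {u, v} ↔ adj u v))
    (T : V → Finset V) (hT : ∀ z ∈ B, (T z).card = 4) (hTA : ∀ z ∈ B, T z ⊆ A)
    (hnb : ∀ z ∈ B, ∀ t ∈ A ∪ B, t ≠ z → (adj z t ↔ t ∈ T z))
    (hK : ∀ z ∈ B, ∀ s ∈ T z, ∀ t ∈ T z, s ≠ t → adj s t) (h5 : 5 ≤ A.card) :
    Conf c A ∧ rk c (A : Set V) = 5 ∧
      (∀ u ∈ A, ∀ v ∈ A, u ≠ v → (FaceOn c A {u, v} ↔ adj u v)) ∧
      ∀ z ∈ B, FaceOn c A (T z : Set V) ∧ LinearIndependent ℝ (fun t : T z => c t) := by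
  induction B using Finset.induction_on with
  | empty =>
    simp only [Finset.union_empty] at hc hr hadj
    exact ⟨hc, hr, hadj, fun z hz => absurd hz (Finset.notMem_empty z)⟩
  | insert z B' hz ih =>
    have hzA : z ∉ A := fun h =>
      Finset.disjoint_left.1 hAB h (Finset.mem_insert_self z B')
    have hzB : z ∈ insert z B' := Finset.mem_insert_self z B'
    have hzU : z ∈ A ∪ insert z B' := Finset.mem_union_right _ hzB
    have hsub : B' ⊆ insert z B' := Finset.subset_insert z B'
    have her : (A ∪ insert z B').erase z = A ∪ B' := by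
      ext w
      simp only [Finset.mem_erase, Finset.mem_union, Finset.mem_insert]
      constructor
      · rintro ⟨h1, h2 | h2 | h2⟩
        · exact Or.inl h2
        · exact absurd h2 h1
        · exact Or.inr h2
      · rintro (h2 | h2)
        · exact ⟨fun h => hzA (h ▸ h2), Or.inl h2⟩
        · exact ⟨fun h => hz (h ▸ h2), Or.inr (Or.inr h2)⟩
    have hTzA : T z ⊆ A := hTA z hzB
    have hTz : T z ⊆ (A ∪ insert z B').erase z := by
      rw [her]
      exact hTzA.trans Finset.subset_union_left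
    have hzTz : z ∉ T z := fun h => hzA (hTzA h)
    have h6 : ∃ w ∈ A ∪ insert z B', w ≠ z ∧ w ∉ T z := by
      have h7 : ¬ A ⊆ T z := fun h => by
        have := Finset.card_le_card h
        rw [hT z hzB] at this
        omega
      obtain ⟨w, hw1, hw2⟩ := Finset.not_subset.1 h7
      exact ⟨w, Finset.mem_union_left _ hw1, fun h => hzA (h ▸ hw1), hw2⟩
    have hU : ∀ t ∈ T z, t ∈ A ∪ insert z B' := fun t ht =>
      Finset.mem_union_left _ (hTzA ht)
    obtain ⟨s1, s2, s3, s4, s5⟩ := simple_vertex hc hr hzU (hT z hzB) hTz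
      (fun t ht htz => (hadj z hzU t ht htz.symm).trans (hnb z hzB t ht htz))
      (fun s hs t ht hst => (hadj s (hU s hs) t (hU t ht) hst).2 (hK z hzB s hs t ht hst)) h6
    rw [her] at s1 s2 s3 s4
    have hAB' : Disjoint A B' := Finset.disjoint_of_subset_right hsub hAB
    have hsub' : A ∪ B' ⊆ A ∪ insert z B' := Finset.union_subset_union_right hsub
    obtain ⟨r1, r2, r3, r4⟩ := ih hAB' s1 s2
      (fun u hu v hv huv => (s3 u hu v hv huv).trans (hadj u (hsub' hu) v (hsub' hv) huv))
      (fun y hy => hT y (hsub hy)) (fun y hy => hTA y (hsub hy))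
      (fun y hy t ht => hnb y (hsub hy) t (hsub' ht)) (fun y hy => hK y (hsub hy))
    refine ⟨r1, r2, r3, fun y hy => ?_⟩
    rcases Finset.mem_insert.1 hy with rfl | hy
    · exact ⟨s4.restrict Finset.subset_union_left (by exact_mod_cast hTzA), s5⟩
    · exact r4 y hy

end Pool.Agent.Helper9.G4
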